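import Pool.Agent.H211.CH.Stm2

/-!
# The lifting lemma (`S_A4`)
-/

set_option autoImplicit false

open Polynomial
open Pool.Agent.H211.CH

namespace Pool.Agent.H670.CH211

universe u

variable {K : Type u} [Field K]

theorem it_succ (P : K[X]) (n : ℕ) : it P (n + 1) = P.comp (it P n) := by
  unfold it
  rw [Function.iterate_succ_apply']

theorem it_deg (P : K[X]) (n : ℕ) : (it P n).natDegree = P.natDegree ^ n := by
  induction n with
  | zero => simp [it]
  | succ n ih => rw [it_succ, natDegree_comp, ih, pow_succ']

theorem it_semi {P p Q : K[X]} (h : P.comp p = p.comp Q) (n : ℕ) :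
    (it P n).comp p = p.comp (it Q n) := by
  induction n with
  | zero => simp [it]
  | succ n ih =>
    rw [it_succ, it_succ, comp_assoc, ih, ← comp_assoc, h, comp_assoc]

theorem cancel_right {A B V : K[X]} (hV : 0 < V.natDegree) (h : A.comp V = B.comp V) : A = B := by
  have h0 : (A - B).comp V = 0 := by rw [sub_comp, h, sub_self]
  rcases comp_eq_zero_iff.1 h0 with h1 | ⟨_, h2⟩
  · exact sub_eq_zero.1 h1
  · rw [h2, natDegree_C] at hV
    exact absurd hV (lt_irrefl 0)

theorem affine_inv {p : K[X]} (hp : p.natDegree = 1) : ∃ q : K[X], p.comp q = X := by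
  obtain ⟨a, ha, b, hab⟩ := natDegree_eq_one.1 hp
  refine ⟨C a⁻¹ * (X - C b), ?_⟩
  rw [← hab]
  simp only [add_comp, mul_comp, C_comp, X_comp]
  rw [← mul_assoc, ← C_mul, mul_inv_cancel₀ ha]
  simp

theorem t_A4 {K : Type u} [Field K] [IsAlgClosed K] [CharZero K] (hCAN : S_CAN K) (hER : S_ER K)
    (hA1 : S_A1 K) (hA1b : S_A1b K) (hA2 : S_A2 K) (hA2b : S_A2b K) (hA3 : S_A3 K) (hC4 : S_C4 K) :
    S_A4 K := by
  intro P p Y N hP hN hp h
  by_cases hCh : Cheb P
  · exact Or.inl hCh
  refine Or.inr ?_
  have hd : 0 < P.natDegree := by omega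
  induction hm : p.natDegree using Nat.strong_induction_on generalizing p Y with
  | _ m ih =>
    have hF : (it P N).natDegree = P.natDegree ^ N := it_deg P N
    have hF2 : 2 ≤ (it P N).natDegree := by
      rw [hF]
      calc 2 ≤ P.natDegree := hP
        _ = P.natDegree ^ 1 := (pow_one _).symm
        _ ≤ P.natDegree ^ N := Nat.pow_le_pow_right hd hN
    have hYd : Y.natDegree = P.natDegree ^ N := by
      have h1 := congrArg natDegree h
      rw [natDegree_comp, natDegree_comp, hF, mul_comm] at h1
      exact (Nat.eq_of_mul_eq_mul_left hp h1).symm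
    rcases Nat.lt_or_ge m 2 with hm2 | hm2
    · have hm1 : p.natDegree = 1 := by omega
      obtain ⟨q, hq⟩ := affine_inv hm1
      refine ⟨q.comp (P.comp p), ?_⟩
      rw [← comp_assoc p, hq, X_comp]
    · by_cases hg : Nat.Coprime m P.natDegree
      · have hcop : Nat.Coprime p.natDegree (it P N).natDegree := by
          rw [hm, hF]
          exact Nat.Coprime.pow_right N hg
        rcases hA1 (it P N) p Y hF2 (by omega) hcop h with h1 | ⟨w, c, a, hpe⟩
        · exact absurd (hC4.1 P N hP hN h1) hCh
        · rw [hm] at hpe
          have hc : c ≠ 0 := by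
            rintro rfl
            rw [hpe] at hp
            simp at hp
          obtain ⟨r, S, hS⟩ := hA1b (it P N) Y m w c a (by omega) hc (by omega)
            (by rw [← hpe]; exact h)
          rcases hA2 P N m r w S hP hN hm2 hg hS with h2 | ⟨r', S₁, hS₁⟩
          · exact absurd h2 hCh
          · rw [hpe]
            exact hA2b P S₁ m r' w c a (by omega) hc hS₁
      · have hg1 : 1 < Nat.gcd m P.natDegree := by
          have h0 : 0 < Nat.gcd m P.natDegree := Nat.gcd_pos_of_pos_left _ (by omega)
          have h1 : Nat.gcd m P.natDegree ≠ 1 := hg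
          omega
        have hg2 : 1 < Nat.gcd p.natDegree Y.natDegree := by
          rw [hm, hYd]
          have hdvd : Nat.gcd m P.natDegree ∣ Nat.gcd m (P.natDegree ^ N) :=
            Nat.gcd_dvd_gcd_of_dvd_right _ (dvd_pow_self _ (by omega))
          have hpos : 0 < Nat.gcd m (P.natDegree ^ N) := Nat.gcd_pos_of_pos_left _ (by omega)
          exact lt_of_lt_of_le hg1 (Nat.le_of_dvd hpos hdvd)
        have hYpos : 0 < Y.natDegree := by
          rw [hYd]
          exact pow_pos hd N
        obtain ⟨V, W, W', hV, hpW, hYW⟩ :=
          hER (it P N) p p Y (by omega) hp hp hYpos h hg2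
        have hVpos : 0 < V.natDegree := by omega
        have hcan : (it P N).comp W = W.comp (V.comp W') := by
          apply cancel_right hVpos
          rw [comp_assoc, ← hpW, h]
          conv_lhs => rw [hpW, hYW]
          simp only [comp_assoc]
        have hpd : p.natDegree = W.natDegree * V.natDegree := by
          rw [hpW, natDegree_comp]
        have hWpos : 0 < W.natDegree := by
          rcases Nat.eq_zero_or_pos W.natDegree with h0 | h0
          · rw [h0, zero_mul] at hpd
            omega
          · exact h0
        have hWlt : W.natDegree < m := by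
          rw [← hm, hpd]
          exact lt_mul_of_one_lt_right hWpos hV
        obtain ⟨Q, hQ⟩ := ih W.natDegree hWlt W (V.comp W') hWpos hcan rfl
        have hQN := it_semi hQ N
        have hQd : Q.natDegree = P.natDegree := by
          have h1 := congrArg natDegree hQ
          rw [natDegree_comp, natDegree_comp, mul_comm] at h1
          exact (Nat.eq_of_mul_eq_mul_left hWpos h1).symm
        have heq : W.comp (it Q N) = W.comp (V.comp W') := by rw [← hQN, hcan]
        have hdeg : (it Q N).natDegree = (V.comp W').natDegree := by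
          have h1 := congrArg natDegree heq
          rw [natDegree_comp, natDegree_comp (p := W)] at h1
          exact Nat.eq_of_mul_eq_mul_left hWpos h1
        have hQNpos : 0 < (it Q N).natDegree := by
          rw [it_deg, hQd]
          exact pow_pos hd N
        obtain ⟨L, _, hL2, hL3⟩ := hCAN W (it Q N) W (V.comp W') hQNpos hdeg hWpos heq
        obtain ⟨P₂, hP₂, _⟩ := hA3 Q (L.comp V) W' N (by omega) hN (by rw [hL2, comp_assoc])
        refine ⟨P₂, ?_⟩
        calc P.comp p = P.comp (W.comp V) := by rw [hpW]
          _ = P.comp ((W.comp L).comp V) := by rw [hL3]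
          _ = (P.comp W).comp (L.comp V) := by simp only [comp_assoc]
          _ = (W.comp Q).comp (L.comp V) := by rw [hQ]
          _ = W.comp (Q.comp (L.comp V)) := by rw [comp_assoc]
          _ = W.comp ((L.comp V).comp P₂) := by rw [hP₂]
          _ = ((W.comp L).comp V).comp P₂ := by simp only [comp_assoc]
          _ = (W.comp V).comp P₂ := by rw [hL3]
          _ = p.comp P₂ := by rw [hpW]

end Pool.Agent.H670.CH211
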